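import Mathlib
import Pool.Agent.Lib.MP_fb225e_nt.Qt.Final2
import Pool.Agent.Lib.MP_fb225e_nt.Qt.Gal4
import Pool.Agent.Lib.MP_fb225e_nt.Fam.Completed

/-!
# MP_fb225e_nt: the zeros near the edge for all subfields of almost all fields of a family

Let `E` be an elliptic curve over `ℚ` and let `L_i/k_i` be a finite family of Galois extensions of
number fields, of degree at most `n` over `ℚ`, each with an intermediate field `F_i` normal over
`k_i` such that `L_i/F_i` is solvable or all elements of the Galois group of `F_i` over `k_i` have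
prime power order (for instance `F_i = k_i`, or `F_i` of prime power degree over `k_i`, or with
Galois group `S_3`, `S_4`, `A_4` or `A_5`). Suppose that the L-functions `L(E/K, χ, s)` are entire
for all `K` with `k_i ⊂ K ⊂ L_i` and all characters `χ` of the Galois group of `L_i` over `K`, and
that `L(E/L_i, s) = L(E/F_i, s) Q_i(s)` with `Q_i` entire. No functional equation and no automorphy
is assumed. Let `0 < δ ≤ 1/2` and let `M` bound the discriminant of `E`, the functions `Q_i` on the
part `|Im s| ≤ T + 1` of the half-plane `Re s ≥ 3/2 - δ` and, for all `i` and all `j` except at most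
`B` of them, the sums `|∑ V_i(m) V_j(m)| / x ^ (1 - δ)`, `x ≥ 1`, over the squarefree `m ≤ x`, where
`V_i(m)` is the product over the primes `p` dividing `m` of the difference of the numbers of primes
of norm `p` of `L_i` and of `F_i`. Put `X = M (T + 2) / δ` and let `0 ≤ l ≤ δ / A`. Then for all but
`C B (log X / δ) ^ A X ^ (A l / δ)` of the `i`, for **all** `K` with `k_i ⊂ K ⊂ L_i` the functions
`Λ(E/K, s)` and `Λ(E/(K ∩ F_i), s)` have the same zeros, with the same multiplicities, with
`Re s ≥ 3/2 - l`, `|Im s| ≤ T`; the constants `A`, `C` depend on `n` only.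

Proof. A zero of `Q_i` near height `t` forces one of the sums
`∑_p x_p(E) V_i(p) (log p)^(q-1) p^(-1-η-it) / (q-1)!`, `m < q ≤ 2m`, over the primes
`p > exp (c m / η)` to be large (Landau's local lemma, Turán's second main theorem). The mean square
over `|t| ≤ T + 1` and over `i` is estimated by a Gaussian identity in `t` and duality in `i`; the
numbers `x_p(E)` disappear there, and the primes of a short interval are majorised by its squarefree
numbers (with Landreau's inequality for the sums of `n ^ ω(m)`). So almost all `Q_i` have no zero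
in the region. By Artin's formalism, for `Re s > 5/4` the
orders of vanishing of the `L(E/K, s)` are the averages of a class function over the subgroups; its
restrictions to the subgroups have non-negative inner products with the linear characters
(Heilbronn). If `Q_i(s) ≠ 0` this class function is constant on the normal subgroup `N` fixing `F_i`
and, by an argument with Sylow subgroups or with minimal normal subgroups, on its cosets.
-/

namespace Pool.Agent.Results.MP_fb225e_nt.AlmostAllSubfields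

open Pool.Agent.MPfb225e NumberField Filter Topology

universe u

/-- The completed L-function `A ^ (s/2) ((2π)^(-s) Γ(s)) ^ [K:ℚ] F(s)`, where `F` is the entire
continuation of the L-series and `A` is the conductor (any positive real). -/
noncomputable def completed (K : Type u) [Field K] [NumberField K] (A : ℝ) (F : ℂ → ℂ) (s : ℂ) :
    ℂ :=
  (A : ℂ) ^ (s / 2) *
    ((2 * (Real.pi : ℂ)) ^ (-s) * Complex.Gamma s) ^ (Module.finrank ℚ K) * F s

/-- The L-series of the curve `W` over the number field `K`. -/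
noncomputable def lseries (W : WeierstrassCurve ℤ) (K : Type u) [Field K] [NumberField K]
    (s : ℂ) : ℂ := ((W.baseChange ℚ).baseChange K).LSeries s

/-- The functions `Λ K` are entire continuations of the L-series of `W` over the fields `K` between
`k` and `L`. -/
def Continues (W : WeierstrassCurve ℤ) (k L : Type u) [Field k] [NumberField k] [Field L]
    [NumberField L] [Algebra k L] (Λ : IntermediateField k L → ℂ → ℂ) : Prop :=
  ∀ K, Differentiable ℂ (Λ K) ∧ ∀ s : ℂ, 3 / 2 < s.re → Λ K s = lseries W K s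

/-- The number of ring homomorphisms `𝓞 K → ℤ/p`; for a prime `p` it is the number of primes of `K`
of norm `p`. -/
noncomputable def nu (K : Type u) [Field K] (p : ℕ) : ℕ := Nat.card (𝓞 K →+* ZMod p)

/-- The product of the `ν_p(K) - ν_p(F)` over the primes `p` dividing `m`. -/
noncomputable def V (F K : Type u) [Field F] [Field K] (m : ℕ) : ℤ :=
  ∏ p ∈ m.primeFactors, ((nu K p : ℤ) - nu F p)

/-- `|∑ v(m) w(m)| ≤ M x ^ (1 - δ)` for `x ≥ 1`, where `m ≤ x` runs over the squarefree numbers. -/
def SumBound (M δ : ℝ) (v w : ℕ → ℤ) : Prop :=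
  ∀ x : ℝ, 1 ≤ x →
    |((∑ m ∈ (Finset.Icc 1 ⌊x⌋₊).filter Squarefree, v m * w m : ℤ) : ℝ)| ≤ M * x ^ (1 - δ)

/-- `F` is normal over `k`, and the Galois group of `L` over `F` is solvable or all elements of the
Galois group of `F` over `k` have prime power order. -/
def Admissible {k L : Type u} [Field k] [Field L] [Algebra k L] (F : IntermediateField k L) :
    Prop :=
  IsGalois k F ∧ (Group.IsSolvable (L ≃ₐ[F] L) ∨
    ∀ σ : F ≃ₐ[k] F, ∃ p m : ℕ, p.Prime ∧ σ ^ p ^ m = 1)

/-- The twists by characters are entire: for each field `K₁` between `k` and `L` there are entire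
functions `Φ χ`, for the characters `χ` of the Galois group of `L` over `K₁`, such that `Λ K`, for
each abelian extension `K` of `K₁` in `L`, is the product of the `Φ χ` over the characters `χ` of
the Galois group of `K` over `K₁`. -/
def TwistEntire (k L : Type u) [Field k] [Field L] [Algebra k L]
    (Λ : IntermediateField k L → ℂ → ℂ) : Prop :=
  ∀ K₁ : IntermediateField k L, ∃ Φ : (K₁.fixingSubgroup →* ℂˣ) → ℂ → ℂ,
    (∀ χ, Differentiable ℂ (Φ χ)) ∧ ∀ K : IntermediateField k L, K₁ ≤ K →
      ⁅K₁.fixingSubgroup, K₁.fixingSubgroup⁆ ≤ K.fixingSubgroup → ∀ s : ℂ, Λ K s =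
        ∏ᶠ χ ∈ {χ : K₁.fixingSubgroup →* ℂˣ | ∀ σ : K₁.fixingSubgroup,
          (σ : L ≃ₐ[k] L) ∈ K.fixingSubgroup → χ σ = 1}, Φ χ s

/-- For all fields `K` between `k` and `L` the completed L-functions of `K` and of `K ∩ F` have the
same orders of vanishing at the points with `Re s ≥ σ`, `|Im s| ≤ T`. -/
def SameZeros {k L : Type u} [Field k] [NumberField k] [Field L] [NumberField L] [Algebra k L]
    (F : IntermediateField k L) (Λ : IntermediateField k L → ℂ → ℂ)
    (a : IntermediateField k L → ℝ) (σ T : ℝ) : Prop :=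
  ∀ (K : IntermediateField k L) (s : ℂ), σ ≤ s.re → |s.im| ≤ T →
    analyticOrderNatAt (completed K (a K) (Λ K)) s =
      analyticOrderNatAt (completed (K ⊓ F : IntermediateField k L) (a (K ⊓ F)) (Λ (K ⊓ F))) s

theorem order_eq (K : Type u) [Field K] [NumberField K] {A : ℝ} (hA : 0 < A) {F : ℂ → ℂ}
    (hF : Differentiable ℂ F) {s : ℂ} (hs : 0 < s.re) :
    analyticOrderNatAt (completed K A F) s = analyticOrderNatAt F s := by
  unfold analyticOrderNatAt
  have e : completed K A F = Fam.completed K A F := rfl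
  rw [e, Fam.order_completed K hA hF hs]

theorem order_mul {F Q G : ℂ → ℂ} (hF : Differentiable ℂ F) (hQ : Differentiable ℂ Q)
    (hG : ∀ s, G s = F s * Q s) (h2 : G 2 ≠ 0) (s : ℂ) :
    analyticOrderNatAt G s = analyticOrderNatAt F s + analyticOrderNatAt Q s := by
  have h2' := h2
  rw [hG] at h2'
  have e : G = F * Q := funext hG
  unfold analyticOrderNatAt
  rw [e, analyticOrderAt_mul (hF.analyticAt s) (hQ.analyticAt s),
    ENat.toNat_add (Qt.order_ne_top hF (left_ne_zero_of_mul h2') s)
      (Qt.order_ne_top hQ (right_ne_zero_of_mul h2') s)]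

/-- The numbers of primes of degree one of `L`. -/
theorem nuDiff_top {k L : Type u} [Field k] [NumberField k] [Field L] [NumberField L]
    [Algebra k L] (F : IntermediateField k L) :
    Qt.nuDiff F (⊤ : IntermediateField k L) = Qt.nuDiff F L := by
  funext p
  unfold Qt.nuDiff
  rw [Fam.homCount_congr (IntermediateField.topEquiv (F := k) (E := L)).toRingEquiv p]

theorem result (n : ℕ) : ∃ (A : ℕ) (C : ℝ), 0 < A ∧ 0 < C ∧ ∀ W : WeierstrassCurve ℤ, W.Δ ≠ 0 →
    ∀ N B : ℕ, 1 ≤ B →
    ∀ (k L : Fin N → Type u) [∀ i, Field (k i)] [∀ i, NumberField (k i)] [∀ i, Field (L i)]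
      [∀ i, NumberField (L i)] [∀ i, Algebra (k i) (L i)]
      (F : ∀ i, IntermediateField (k i) (L i)) (Λ : ∀ i, IntermediateField (k i) (L i) → ℂ → ℂ)
      (Q : Fin N → ℂ → ℂ) (a : ∀ i, IntermediateField (k i) (L i) → ℝ) (δ l T M X : ℝ),
    (∀ i, IsGalois (k i) (L i)) → (∀ i, Module.finrank ℚ (L i) ≤ n) →
    (∀ i, Admissible (F i)) → (∀ i, Continues W (k i) (L i) (Λ i)) →
    (∀ i, TwistEntire (k i) (L i) (Λ i)) →
    (∀ i, Differentiable ℂ (Q i)) → (∀ i s, Λ i ⊤ s = Λ i (F i) s * Q i s) →
    (∀ i K, 0 < a i K) → 0 < δ → δ ≤ 1 / 2 → 0 ≤ l → l ≤ δ / A → 0 ≤ T → 2 ≤ M →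
    |(W.Δ : ℝ)| ≤ M → X = M * (T + 2) / δ →
    (∀ i, ∀ s : ℂ, 3 / 2 - δ ≤ s.re → |s.im| ≤ T + 1 → ‖Q i s‖ ≤ M) →
    (∀ i, Set.ncard {j | ¬ SumBound M δ (V (F i) (L i)) (V (F j) (L j))} ≤ B) →
    (Set.ncard {i | ¬ SameZeros (F i) (Λ i) (a i) (3 / 2 - l) T} : ℝ) ≤
      C * B * (Real.log X / δ) ^ A * X ^ (A * l / δ) := by
  classical
  obtain ⟨A, C, hA, hC, h⟩ := Qt.total2.{u} n
  refine ⟨A + 4, 2 * C, by omega, by positivity, ?_⟩
  intro W hW N B hB1 k L _ _ _ _ _ F Λ Q a δ l T M X hGL hdL hF hΛc htw hQ hfac ha hδ hδ1 hl hlA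
    hT hM hΔM hX hQM hB
  have hA1 : (1 : ℝ) ≤ A := by exact_mod_cast hA
  have hA0 : (0 : ℝ) < A := by linarith
  push_cast at hlA ⊢
  have hlA' : l ≤ δ / A := hlA.trans (div_le_div_of_nonneg_left hδ.le hA0 (by linarith))
  have hl4 : l ≤ 1 / 10 := by
    refine hlA.trans ?_
    rw [div_le_iff₀ (by linarith)]
    linarith
  have hΛ : ∀ i K, Differentiable ℂ (Λ i K) := fun i K => (hΛc i K).1
  have hΛs : ∀ i, ∀ K : IntermediateField (k i) (L i), ∀ s : ℂ, 3 / 2 < s.re →
      Λ i K s = lseries W K s := fun i K => (hΛc i K).2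
  have hdeg : ∀ i, ∀ K : IntermediateField (k i) (L i), Module.finrank ℚ K ≤ n := by
    intro i K
    refine le_trans ?_ (hdL i)
    have h1 := Module.finrank_mul_finrank ℚ K (L i)
    have h2 : 0 < Module.finrank K (L i) := Module.finrank_pos
    exact Nat.le_of_dvd Module.finrank_pos ⟨_, h1.symm⟩
  have hord : ∀ i, ∀ s : ℂ, analyticOrderNatAt (Λ i ⊤) s =
      analyticOrderNatAt (Λ i (F i)) s + analyticOrderNatAt (Q i) s := by
    intro i s
    refine order_mul (hΛ i _) (hQ i) (hfac i) ?_ s
    rw [hΛs i ⊤ 2 (by norm_num)]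
    exact Zfr.LSeries_ne _ (by norm_num)
  have hkey : ∀ i, ∀ s : ℂ, 3 / 2 - l ≤ s.re → analyticOrderNatAt (Q i) s = 0 →
      ∀ K : IntermediateField (k i) (L i),
        analyticOrderNatAt (completed K (a i K) (Λ i K)) s =
          analyticOrderNatAt (completed (K ⊓ F i : IntermediateField (k i) (L i)) (a i (K ⊓ F i))
            (Λ i (K ⊓ F i))) s := by
    intro i s hs h0 K
    have hG := hGL i
    rw [order_eq _ (ha i _) (hΛ i _) (by linarith), order_eq _ (ha i _) (hΛ i _) (by linarith)]
    refine Qt.heil_at4 W hW (Λ i) (hΛ i) (hΛs i) (htw i) (s₀ := s) (by linarith) (F i) (hF i).1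
      (hF i).2 ?_ K
    rw [hord, h0, add_zero]
  have hd1 : 1 ≤ 1 / δ := by
    rw [le_div_iff₀ hδ]
    linarith
  have hX1 : 1 ≤ X := by
    rw [hX, le_div_iff₀ hδ]
    nlinarith
  set Ex : Set (Fin N) := {i | ¬ SameZeros (F i) (Λ i) (a i) (3 / 2 - l) T} with hEx
  have hch : ∀ i, ∃ S : Finset ℂ, (∀ s ∈ S, 3 / 2 - l ≤ s.re ∧ |s.im| ≤ T) ∧
      (i ∈ Ex → (1 : ℝ) ≤ ∑ s ∈ S, (analyticOrderNatAt (Q i) s : ℝ)) := by
    intro i
    by_cases hi : i ∈ Ex
    · have hi' : ∃ (K : IntermediateField (k i) (L i)) (s : ℂ), 3 / 2 - l ≤ s.re ∧ |s.im| ≤ T ∧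
          analyticOrderNatAt (completed K (a i K) (Λ i K)) s ≠
            analyticOrderNatAt (completed (K ⊓ F i : IntermediateField (k i) (L i))
              (a i (K ⊓ F i)) (Λ i (K ⊓ F i))) s := by
        by_contra hc
        push Not at hc
        exact hi fun K s h1 h2 => hc K s h1 h2
      obtain ⟨K, s, h1, h2, h3⟩ := hi'
      refine ⟨{s}, fun z hz => ?_, fun _ => ?_⟩
      · rw [Finset.mem_singleton] at hz
        rw [hz]
        exact ⟨h1, h2⟩
      · rw [Finset.sum_singleton]
        have h4 : analyticOrderNatAt (Q i) s ≠ 0 := fun h0 => h3 (hkey i s h1 h0 K)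
        exact_mod_cast Nat.one_le_iff_ne_zero.2 h4
    · exact ⟨∅, fun z hz => absurd hz (Finset.notMem_empty z), fun h => absurd h hi⟩
  choose S hS1 hS2 using hch
  have h1 := h δ l hδ hδ1 hl hlA' W hW N B (fun i => F i)
    (fun i => (⊤ : IntermediateField (k i) (L i)))
    (fun i => hdeg i _) (fun i => hdeg i _) (fun i => Λ i (F i)) (fun i => Λ i ⊤) Q
    (fun i => hΛ i _) hQ (fun i => hΛs i _) (fun i => hΛs i _) hfac T M hT hM hΔM hQM (by
      intro i
      have e : {j | ¬ Qt.Pair M δ (Qt.nuDiff (F i) (⊤ : IntermediateField (k i) (L i)))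
          (Qt.nuDiff (F j) (⊤ : IntermediateField (k j) (L j)))} =
          {j | ¬ SumBound M δ (V (F i) (L i)) (V (F j) (L j))} := by
        ext j
        change (¬ _) ↔ ¬ _
        rw [nuDiff_top, nuDiff_top]
        rfl
      rw [e]
      exact hB i) S hS1
  rw [← hX] at h1
  have hlogX : 1 ≤ Real.log X / δ := by
    have h2 := Zfr.two_le_Lg hδ hδ1 hT hM
    have h3 : Zfr.Lg M T δ = Real.log X := by
      rw [hX]
      rfl
    rw [h3] at h2
    rw [le_div_iff₀ hδ]
    linarith
  have hfin : Ex.Finite := Set.toFinite _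
  have h2 : (Ex.ncard : ℝ) ≤ ∑ i, ∑ s ∈ S i, (analyticOrderNatAt (Q i) s : ℝ) := by
    rw [Set.ncard_eq_toFinset_card Ex hfin, Finset.card_eq_sum_ones, Nat.cast_sum]
    refine (Finset.sum_le_sum fun i hi => ?_).trans
      (Finset.sum_le_sum_of_subset_of_nonneg (Finset.subset_univ _) fun i _ _ =>
        Finset.sum_nonneg fun s _ => Nat.cast_nonneg _)
    rw [Nat.cast_one]
    exact hS2 i (hfin.mem_toFinset.1 hi)
  refine h2.trans (h1.trans ?_)
  have h3 : X ^ ((A : ℝ) * l / δ) ≤ X ^ (((A : ℝ) + 4) * l / δ) := by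
    refine Real.rpow_le_rpow_of_exponent_le hX1 ?_
    refine div_le_div_of_nonneg_right ?_ hδ.le
    exact mul_le_mul_of_nonneg_right (by linarith) hl
  have h4 : (1 : ℝ) ≤ B := by exact_mod_cast hB1
  have h5 : C * ((B : ℝ) + 1) ≤ 2 * C * B := by nlinarith
  have h6 : (Real.log X / δ) ^ A ≤ (Real.log X / δ) ^ (A + 4) :=
    pow_le_pow_right₀ hlogX (by omega)
  have h7 : 0 ≤ Real.log X / δ := by linarith
  exact mul_le_mul (mul_le_mul h5 h6 (by positivity) (by positivity)) h3 (by positivity)
    (by positivity)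

end Pool.Agent.Results.MP_fb225e_nt.AlmostAllSubfields
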