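import Mathlib
import Pool.Agent.Lib.MP_fb225e_nt.Tw.Main
import Pool.Agent.Lib.MP_fb225e_nt.Fam.Completed

/-!
# MP_fb225e_nt: a log-free zero density estimate near the edge for all quadratic twists together

Let `K` be a number field of degree `n`, let `W` be an elliptic curve over `K` and let `W^d`,
`d ∈ Ds`, be its quadratic twists by squarefree integers `|d| ≤ D` such that the L-series of `W^d`
has an entire continuation `F_d`. If `M` bounds all `|F_d|` on the part `|Im s| ≤ T + 1` of the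
half-plane `Re s ≥ 3/2 - δ`, then for `0 ≤ λ ≤ δ / C` all the completed L-functions together have at
most `C * (D M (T + 2) / δ) ^ (C λ / δ)` zeros with `Re s ≥ 3/2 - λ`, `|Im s| ≤ T`; the constant `C`
depends on `n` only. Hence, if `D M (T + 2) / δ ≤ D ^ B`, all but `C D ^ ε` of the twists have no
zero with `Re s ≥ 3/2 - ε δ / (C B)`, `|Im s| ≤ T`.

Proof. As in `ZeroDensity`, a zero of `F_d` near height `t` forces one of the sums
`∑_p y_p(W^d) (log p)^(q-1) p^(-1-η-it) / (q-1)!`, `m < q ≤ 2m`, over the primes `p > exp (c m / η)`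
to be large (Landau's local lemma, Turán's second main theorem), where `y_p(W^d)` is the sum of
`x_v = a_v / √p` over the places `v` of good reduction of norm `p`. For these primes
`y_p(W^d) = (d/p) y_p(W)`. The mean square over `|t| ≤ T + 1` and over `d` is estimated by a Gaussian
identity in `t`, duality in `d` and Selberg's sieve in short intervals; the terms with `d ≠ d'` are
small because `n ↦ (dd'/n)` is a periodic function with mean value zero.
-/

namespace Pool.Agent.Results.MP_fb225e_nt.TwistDensity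

open Pool.Agent.MPfb225e NumberField Filter Topology

universe u

/-- The completed L-function `A ^ (s/2) ((2π)^(-s) Γ(s)) ^ [K:ℚ] F(s)`, where `F` is the entire
continuation of the L-series and `A` is the conductor (any positive real). -/
noncomputable def completed (K : Type u) [Field K] [NumberField K] (A : ℝ) (F : ℂ → ℂ) (s : ℂ) :
    ℂ :=
  (A : ℂ) ^ (s / 2) *
    ((2 * (Real.pi : ℂ)) ^ (-s) * Complex.Gamma s) ^ (Module.finrank ℚ K) * F s

/-- The quadratic twist of `W` by `d`: the curve `y² = x³ + d b₂ x² + 8 d² b₄ x + 16 d³ b₆`. -/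
def twist {K : Type u} [Field K] (W : WeierstrassCurve K) (d : K) : WeierstrassCurve K :=
  ⟨0, d * W.b₂, 0, 8 * d ^ 2 * W.b₄, 16 * d ^ 3 * W.b₆⟩

theorem twist_eq {K : Type u} [Field K] (W : WeierstrassCurve K) (d : K) :
    twist W d = Tw.twist W d := rfl

theorem completed_eq (K : Type u) [Field K] [NumberField K] (A : ℝ) (F : ℂ → ℂ) :
    completed K A F = Fam.completed K A F := rfl

theorem order_eq (K : Type u) [Field K] [NumberField K] {A : ℝ} (hA : 0 < A) {F : ℂ → ℂ}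
    (hF : Differentiable ℂ F) {s : ℂ} (hs : 0 < s.re) :
    analyticOrderNatAt (completed K A F) s = analyticOrderNatAt F s := by
  unfold analyticOrderNatAt
  rw [completed_eq, Fam.order_completed K hA hF hs]

/-- The order of vanishing at a zero is positive. -/
theorem one_le_order {K : Type u} [Field K] [NumberField K] {W : WeierstrassCurve K} {F : ℂ → ℂ}
    (hF : Differentiable ℂ F) (hFL : ∀ s : ℂ, 3 / 2 < s.re → F s = W.LSeries s) {ρ : ℂ}
    (h0 : F ρ = 0) : 1 ≤ analyticOrderNatAt F ρ := by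
  have h2 : F 2 ≠ 0 := by
    rw [hFL 2 (by norm_num)]
    exact Zfr.LSeries_ne W (by norm_num)
  have han : AnalyticOnNhd ℂ F Set.univ := fun z _ => hF.analyticAt z
  have htop : analyticOrderAt F ρ ≠ ⊤ := by
    refine han.analyticOrderAt_ne_top_of_isPreconnected isPreconnected_univ (Set.mem_univ 2)
      (Set.mem_univ ρ) ?_
    rw [(hF.analyticAt 2).analyticOrderAt_eq_zero.2 h2]
    exact ENat.zero_ne_top
  have hne : analyticOrderAt F ρ ≠ 0 := by
    intro h
    exact (hF.analyticAt ρ).analyticOrderAt_eq_zero.1 h h0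
  rw [Nat.one_le_iff_ne_zero]
  intro h
  unfold analyticOrderNatAt at h
  rcases ENat.toNat_eq_zero.1 h with h | h
  · exact hne h
  · exact htop h

theorem result (n : ℕ) : ∃ C : ℝ, 0 < C ∧ ∀ (K : Type u) [Field K] [NumberField K]
    (W : WeierstrassCurve K) [W.IsElliptic], Module.finrank ℚ K = n →
    ∀ (Ds : Finset ℤ) (D : ℝ), 1 ≤ D → (∀ d ∈ Ds, Squarefree d ∧ |(d : ℝ)| ≤ D) →
    ∀ V : ℤ → WeierstrassCurve K,
    (∀ d ∈ Ds, ∃ C' : WeierstrassCurve.VariableChange K, C' • V d = twist W (d : K)) →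
    ∀ F : ℤ → ℂ → ℂ, (∀ d ∈ Ds, Differentiable ℂ (F d)) →
    (∀ d ∈ Ds, ∀ s : ℂ, 3 / 2 < s.re → F d s = (V d).LSeries s) →
    ∀ (A : ℤ → ℝ) (δ T M : ℝ), (∀ d ∈ Ds, 0 < A d) → 0 < δ → δ ≤ 1 / 2 → 0 ≤ T → 2 ≤ M →
    (∀ d ∈ Ds, ∀ s : ℂ, 3 / 2 - δ ≤ s.re → |s.im| ≤ T + 1 → ‖F d s‖ ≤ M) →
    (∀ lam : ℝ, 0 ≤ lam → lam ≤ δ / C →
      ∀ S : ℤ → Finset ℂ, (∀ d ∈ Ds, ∀ ρ ∈ S d, 3 / 2 - lam ≤ ρ.re ∧ |ρ.im| ≤ T) →
      ∑ d ∈ Ds, ∑ ρ ∈ S d, (analyticOrderNatAt (completed K (A d) (F d)) ρ : ℝ) ≤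
        C * (D * M * (T + 2) / δ) ^ (C * lam / δ)) ∧
    ∀ ε B : ℝ, 0 < ε → ε ≤ 1 → 1 ≤ B → D * M * (T + 2) / δ ≤ D ^ B →
      (Set.ncard {d : ℤ | d ∈ Ds ∧ ∃ ρ : ℂ, 3 / 2 - ε * δ / (C * B) ≤ ρ.re ∧ |ρ.im| ≤ T ∧
        completed K (A d) (F d) ρ = 0} : ℝ) ≤ C * D ^ ε := by
  classical
  obtain ⟨C, hC, h⟩ := Tw.density.{u} n
  have hexp : C ≤ Real.exp C := by linarith [Real.add_one_le_exp C]
  have hexp1 : 1 ≤ Real.exp C := Real.one_le_exp hC.le
  refine ⟨Real.exp C, Real.exp_pos C, ?_⟩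
  intro K _ _ W _ hn Ds D hD hDs V hV F hF hFL A δ T M hA hδ hδ1 hT hM hFM
  have hDM : 2 ≤ D * M := by nlinarith
  have hX : (8 : ℝ) ≤ D * M * (T + 2) / δ := by
    rw [le_div_iff₀ hδ]
    nlinarith
  have hfirst : ∀ lam : ℝ, 0 ≤ lam → lam ≤ δ / Real.exp C →
      ∀ S : ℤ → Finset ℂ, (∀ d ∈ Ds, ∀ ρ ∈ S d, 3 / 2 - lam ≤ ρ.re ∧ |ρ.im| ≤ T) →
      ∑ d ∈ Ds, ∑ ρ ∈ S d, (analyticOrderNatAt (completed K (A d) (F d)) ρ : ℝ) ≤
        Real.exp C * (D * M * (T + 2) / δ) ^ (Real.exp C * lam / δ) := by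
    intro lam hlam hlamδ S hS
    have h1 : Real.exp C * lam ≤ δ := by
      rw [le_div_iff₀ (Real.exp_pos C)] at hlamδ
      linarith
    have h2 : C * lam ≤ δ := (mul_le_mul_of_nonneg_right hexp hlam).trans h1
    have h3 : lam ≤ 1 / 2 := by
      have : lam ≤ Real.exp C * lam := le_mul_of_one_le_left hlam hexp1
      linarith
    have h4 : ∑ d ∈ Ds, ∑ ρ ∈ S d, (analyticOrderNatAt (completed K (A d) (F d)) ρ : ℝ) =
        ∑ d ∈ Ds, ∑ ρ ∈ S d, (analyticOrderNatAt (F d) ρ : ℝ) := by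
      refine Finset.sum_congr rfl fun d hd => Finset.sum_congr rfl fun ρ hρ => ?_
      rw [order_eq K (hA d hd) (hF d hd) (by linarith [(hS d hd ρ hρ).1])]
    rw [h4]
    refine (h K W hn Ds D hD hDs V hV F hF hFL δ T M hδ hδ1 hT hM hFM lam hlam h2 S hS).trans ?_
    have hlog : 0 ≤ Real.log (D * M * (T + 2) / δ) := Real.log_nonneg (by linarith)
    have h5 : Real.exp (C * (1 + lam * (Zfr.Lg (D * M) T δ / δ))) =
        Real.exp C * (D * M * (T + 2) / δ) ^ (C * lam / δ) := by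
      rw [Real.rpow_def_of_pos (by linarith), ← Real.exp_add]
      congr 1
      unfold Zfr.Lg
      ring
    rw [h5]
    refine mul_le_mul_of_nonneg_left ?_ (Real.exp_pos C).le
    refine Real.rpow_le_rpow_of_exponent_le (by linarith) ?_
    exact div_le_div_of_nonneg_right (mul_le_mul_of_nonneg_right hexp hlam) hδ.le
  refine ⟨hfirst, ?_⟩
  intro ε B hε hε1 hB hXB
  have hC0 : 0 < Real.exp C := Real.exp_pos C
  obtain ⟨lam, hlam⟩ : ∃ lam : ℝ, lam = ε * δ / (Real.exp C * B) := ⟨_, rfl⟩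
  have hlam0 : 0 ≤ lam := by rw [hlam]; positivity
  have hlamle : lam ≤ δ / Real.exp C := by
    rw [hlam, div_le_div_iff₀ (by positivity) hC0]
    have h1 : ε * δ ≤ δ * B := by nlinarith
    calc ε * δ * Real.exp C ≤ δ * B * Real.exp C := mul_le_mul_of_nonneg_right h1 hC0.le
      _ = _ := by ring
  rw [← hlam]
  -- the exceptional set
  set bad : Finset ℤ := Ds.filter fun d => ∃ ρ : ℂ, 3 / 2 - lam ≤ ρ.re ∧ |ρ.im| ≤ T ∧
    completed K (A d) (F d) ρ = 0 with hbad
  have hset : {d : ℤ | d ∈ Ds ∧ ∃ ρ : ℂ, 3 / 2 - lam ≤ ρ.re ∧ |ρ.im| ≤ T ∧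
      completed K (A d) (F d) ρ = 0} = (bad : Set ℤ) := by
    ext d
    rw [hbad, Finset.coe_filter]
  rw [hset, Set.ncard_coe_finset]
  have hex : ∀ d : ℤ, ∃ ρ : ℂ, d ∈ bad → 3 / 2 - lam ≤ ρ.re ∧ |ρ.im| ≤ T ∧
      completed K (A d) (F d) ρ = 0 := by
    intro d
    by_cases hd : d ∈ bad
    · obtain ⟨ρ, hρ⟩ := (Finset.mem_filter.1 hd).2
      exact ⟨ρ, fun _ => hρ⟩
    · exact ⟨0, fun h' => absurd h' hd⟩
  choose ρ hρ using hex
  set S : ℤ → Finset ℂ := fun d => if d ∈ bad then {ρ d} else ∅ with hS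
  have hS1 : ∀ d ∈ Ds, ∀ x ∈ S d, 3 / 2 - lam ≤ x.re ∧ |x.im| ≤ T := by
    intro d _ x hx
    by_cases hd : d ∈ bad
    · rw [hS] at hx
      simp only [if_pos hd, Finset.mem_singleton] at hx
      rw [hx]
      exact ⟨(hρ d hd).1, (hρ d hd).2.1⟩
    · rw [hS] at hx
      simp only [if_neg hd] at hx
      exact absurd hx (Finset.notMem_empty x)
  have h1 := hfirst lam hlam0 hlamle S hS1
  have hlamh : lam ≤ 1 / 2 := by
    have h2 : δ / Real.exp C ≤ δ := div_le_self hδ.le hexp1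
    linarith
  have h2 : (bad.card : ℝ) ≤
      ∑ d ∈ Ds, ∑ x ∈ S d, (analyticOrderNatAt (completed K (A d) (F d)) x : ℝ) := by
    have h3 : (bad.card : ℝ) = ∑ d ∈ bad, (1 : ℝ) := by simp
    rw [h3]
    refine (Finset.sum_le_sum fun d hd => ?_).trans
      (Finset.sum_le_sum_of_subset_of_nonneg (Finset.filter_subset _ _) fun d _ _ =>
        Finset.sum_nonneg fun x _ => Nat.cast_nonneg _)
    have hdD : d ∈ Ds := (Finset.mem_filter.1 hd).1
    have e : S d = {ρ d} := by rw [hS]; simp only [if_pos hd]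
    rw [e, Finset.sum_singleton]
    obtain ⟨h4, h5, h6⟩ := hρ d hd
    have hre : 0 < (ρ d).re := by linarith
    rw [order_eq K (hA d hdD) (hF d hdD) hre]
    have hz : F d (ρ d) = 0 := by
      by_contra hne
      have h7 : analyticOrderNatAt (completed K (A d) (F d)) (ρ d) = 0 := by
        rw [order_eq K (hA d hdD) (hF d hdD) hre]
        exact Zd.order_eq_zero (hF d hdD) hne
      have h8 : completed K (A d) (F d) (ρ d) ≠ 0 := by
        unfold completed
        refine mul_ne_zero (mul_ne_zero ?_ (pow_ne_zero _ (mul_ne_zero ?_ ?_))) hne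
        · exact (Complex.cpow_ne_zero_iff_of_exponent_ne_zero (by
            intro h9
            have := congrArg Complex.re h9
            simp at this
            linarith)).2 (by exact_mod_cast (hA d hdD).ne')
        · refine (Complex.cpow_ne_zero_iff_of_exponent_ne_zero (by
            intro h9
            have := congrArg Complex.re h9
            simp at this
            linarith)).2 ?_
          exact mul_ne_zero two_ne_zero (by exact_mod_cast Real.pi_ne_zero)
        · exact Complex.Gamma_ne_zero_of_re_pos hre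
      exact h8 h6
    exact_mod_cast one_le_order (hF d hdD) (hFL d hdD) hz
  refine h2.trans (h1.trans ?_)
  refine mul_le_mul_of_nonneg_left ?_ hC0.le
  have e1 : Real.exp C * lam / δ = ε / B := by
    rw [hlam]
    field_simp
  rw [e1]
  have h3 : (D * M * (T + 2) / δ) ^ (ε / B) ≤ (D ^ B) ^ (ε / B) :=
    Real.rpow_le_rpow (by linarith) hXB (by positivity)
  refine h3.trans (le_of_eq ?_)
  rw [← Real.rpow_mul (by linarith)]
  congr 1
  field_simp

end Pool.Agent.Results.MP_fb225e_nt.TwistDensity
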