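import Mathlib
import Pool.Agent.Lib.MP_fb225e_nt.Tw.SzUnif

/-!
# MP_fb225e_nt: the classical zero-free region without exceptional zeros of `L(E_d/K, s)` for
2-transitive `K`, uniformly in the elliptic curve `E` over `ℚ` and its quadratic twists `E_d`

Let `E` run over the elliptic curves over `ℚ` and `d` over the nonzero integers. For number fields
`K_1, …, K_m` of bounded degree such that `K_i ⊗ K_j` has at most two simple factors on average,
some `L(E_d/K_i, s)` has no real zero close to the edge `s = 3/2`, unless the numbers `m a_p(E)/√p`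
are close to integers for most `p`, along some scale `ε` between `c r` and `r`; and it has no zero
at all with `Re s > 3/2 - c r`, `|Im s| ≤ T`, unless the numbers `(d/p) a_p(E)/√p` are close to `-2`
too often at such a scale. Here `r = δ / log (M (T + 2) / δ)`, where `M` bounds the discriminant of
(an integral model of) `E`, `|d|`, the discriminants of the `K_i`, the L-functions near the edge and
the error terms of the counts of ideals. The constant `c` does not depend on `E`, `d` and the `K_i`.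
For given `E` the alternatives contradict the Sato-Tate law as soon as `r` is small, that is, if `M`
is large (`M` may be enlarged); it is not used. If `K_i ⊗ K_j` has less than 5/4 simple factors on
average, then it suffices that `L(E_d/ℚ, s)` has no zero very close to `3/2`.

The case `m = 1` concerns one field `K` with `K ⊗ K ≅ K × K'`, for instance any `K` of degree `n`
whose Galois closure has group `S_n`. If the `K_i` are pairwise linearly disjoint and the group of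
each has at most `k + 1` orbits on pairs, `m = k`, then at most `k - 1` of the `L(E_d/K_i, s)` have
an exceptional zero: this is the analogue of Page's theorem.

Proof: let `c_i(p)` be the number of primes of norm `p` of `K_i`, `x_p = a_p / √p`, `y_p` the same
for `E_d`, so `y_p = ± x_p` for `p` prime to `6 d Δ_E`; the other primes have weight
`O(1 + n log |d Δ_E|)`. Let `𝔼` be the mean value with weights `ε p^(-1-ε) log p` at a scale
`ε = θ r`. If `L(E_d/ℚ, s)` had a zero near `3/2` then `𝔼[y] ≤ -1 + κ` at a larger scale, and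
`0 ≤ 𝔼[(m y + m)² - ‖m y‖²]` would give a contradiction; hence `|𝔼[y]| ≤ κ`. If all
`L(E_d/K_i, s)` have an exceptional zero then `𝔼[c_i y] ≤ -1 + κ`; `𝔼[c_i c_j] ≤ γ_ij + κ` by
one-sided bounds for the logarithmic derivatives of zeta functions. An exceptional zero of `ζ_{K_i}`
would contradict `c_i y ≥ -2 c_i` at a larger scale, so `𝔼[c_i] ≥ 1 - κ`. Hence
`0 ≤ 𝔼[(Σ (c_i - 1) + m y)² - ‖m y‖²] ≤ Σ (γ_ij - 1) - 2 m² + 𝔼[m² x² - ‖m x‖²] + κ' < 0`.
A Fejer kernel argument shows that the zeros in the region are real.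
-/

namespace Pool.Agent.Results.MP_fb225e_nt.UniformSiegelZeros

open Pool.Agent.MPfb225e NumberField Filter Topology

open scoped TensorProduct

universe u

/-- `E'` is isomorphic over `ℚ` to the quadratic twist `y² = x³ + d b₂ x² + 8 d² b₄ x + 16 d³ b₆` of
`E` by `d`. -/
def IsTwist (E : WeierstrassCurve ℚ) (d : ℤ) (E' : WeierstrassCurve ℚ) : Prop :=
  ∃ C : WeierstrassCurve.VariableChange ℚ,
    C • E' = ⟨0, d * E.b₂, 0, 8 * (d : ℚ) ^ 2 * E.b₄, 16 * (d : ℚ) ^ 3 * E.b₆⟩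

/-- The completed L-function `A ^ (s/2) ((2π)^(-s) Γ(s)) ^ [K:ℚ] F(s)`, where `F` is the entire
continuation of the L-series and `A` is the conductor (any positive real). -/
noncomputable def completed (K : Type u) [Field K] [NumberField K] (A : ℝ) (F : ℂ → ℂ) (s : ℂ) :
    ℂ :=
  (A : ℂ) ^ (s / 2) *
    ((2 * (Real.pi : ℂ)) ^ (-s) * Complex.Gamma s) ^ (Module.finrank ℚ K) * F s

/-- `M` bounds the error term, of exponent `1 - δ`, of the count of ideals of `K`. -/
def IdealBound (K : Type u) [Field K] [NumberField K] (δ M : ℝ) : Prop :=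
  ∃ κ : ℝ, ∀ x : ℝ, 1 ≤ x →
    |(Nat.card {J : Ideal (𝓞 K) // J ≠ ⊥ ∧ (Ideal.absNorm J : ℝ) ≤ x} : ℝ) - κ * x| ≤
      M * x ^ (1 - δ)

/-- The number of simple factors of `K ⊗ K'`. -/
noncomputable def factors (K K' : Type u) [Field K] [NumberField K] [Field K'] [NumberField K'] :
    ℕ :=
  Nat.card (MaximalSpectrum (K ⊗[ℚ] K'))

/-- The simple factor of `K ⊗ K'` attached to a maximal ideal, a number field. -/
abbrev Factor (K K' : Type u) [Field K] [NumberField K] [Field K'] [NumberField K']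
    (I : MaximalSpectrum (K ⊗[ℚ] K')) : Type u := (K ⊗[ℚ] K') ⧸ I.asIdeal

noncomputable instance (K K' : Type u) [Field K] [NumberField K] [Field K'] [NumberField K']
    (I : MaximalSpectrum (K ⊗[ℚ] K')) : Field (Factor K K' I) := Ideal.Quotient.field I.asIdeal

instance (K K' : Type u) [Field K] [NumberField K] [Field K'] [NumberField K']
    (I : MaximalSpectrum (K ⊗[ℚ] K')) : NumberField (Factor K K' I) :=
  have : Module.Finite ℚ (Factor K K' I) := inferInstance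
  NumberField.of_module_finite ℚ (Factor K K' I)

/-- `δ / log (M (T + 2) / δ)` -/
noncomputable def width (δ T M : ℝ) : ℝ := δ / Real.log (M * (T + 2) / δ)

/-- The Legendre symbol `(d/p)` for `p > 2`, and `0` for `p = 2`. -/
def chi (d : ℤ) (p : ℕ) : ℤ := if Odd p then jacobiSym d p else 0

/-- `a_p / √p` -/
noncomputable def xp (E : WeierstrassCurve ℚ) (p : ℕ) : ℝ := (E.LFunction p : ℝ) / √p

/-- The sum of `ε p ^ (-1-ε) log p` over the primes `p` with `(d/p) x_p < -(2 - η)`. -/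
noncomputable def bias (E : WeierstrassCurve ℚ) (d : ℤ) (η ε : ℝ) : ℝ :=
  ε * ∑' p : Nat.Primes, {p : Nat.Primes | (chi d p : ℝ) * xp E p < -(2 - η)}.indicator
    (fun p : Nat.Primes => Real.log p * (p : ℝ) ^ (-(1 + ε))) p

/-- The sum of `ε p ^ (-1-ε) log p (m² x_p² - ‖m x_p‖²)` over the primes `p`, where `x_p = a_p / √p`
and `‖y‖` is the distance of `y` to the nearest integer. -/
noncomputable def spread (E : WeierstrassCurve ℚ) (m : ℕ) (ε : ℝ) : ℝ :=
  ε * ∑' p : Nat.Primes, Real.log p * (p : ℝ) ^ (-(1 + ε)) *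
    ((m * xp E p) ^ 2 - |m * xp E p - round (m * xp E p)| ^ 2)

theorem spread_eq (E : WeierstrassCurve ℚ) (m : ℕ) (ε : ℝ) :
    spread E m ε = ε * ∑' p, Szf.lp ε p *
      ((m * Fam.lam E p) ^ 2 - Szf.dz (m * Fam.lam E p)) := rfl

theorem width_eq (δ T M : ℝ) : width δ T M = δ / Zfr.Lg M T δ := rfl

theorem zero_of_completed (K : Type u) [Field K] [NumberField K] {A : ℝ} (hA : 0 < A) {F : ℂ → ℂ}
    {s : ℂ} (hs : 0 < s.re) : completed K A F s = 0 ↔ F s = 0 := by
  constructor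
  · intro h
    exact (mul_eq_zero.mp h).resolve_left (Fam.pre_ne_zero _ hA hs)
  · intro h
    unfold completed
    rw [h, mul_zero]

/-- base change of a twist -/
theorem baseChange_twist (E E' : WeierstrassCurve ℚ) (d : ℤ) (h : IsTwist E d E')
    (K : Type u) [Field K] [NumberField K] : ∃ C' : WeierstrassCurve.VariableChange K,
      C' • E'.baseChange K = Tw.twist (E.baseChange K) (d : K) := by
  obtain ⟨C, hC⟩ := h
  refine ⟨C.map (algebraMap ℚ K), ?_⟩
  have h1 := congrArg (fun V : WeierstrassCurve ℚ => V.map (algebraMap ℚ K)) hC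
  rw [← WeierstrassCurve.map_variableChange] at h1
  rw [WeierstrassCurve.baseChange, h1]
  unfold Tw.twist
  have e2 : (E.baseChange K).b₂ = algebraMap ℚ K E.b₂ := WeierstrassCurve.map_b₂ _ _
  have e4 : (E.baseChange K).b₄ = algebraMap ℚ K E.b₄ := WeierstrassCurve.map_b₄ _ _
  have e6 : (E.baseChange K).b₆ = algebraMap ℚ K E.b₆ := WeierstrassCurve.map_b₆ _ _
  rw [e2, e4, e6]
  ext <;> simp [WeierstrassCurve.map]

/-- the integral model -/
theorem int_model (W : WeierstrassCurve ℤ) :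
    (1 : WeierstrassCurve.VariableChange ℚ) • (W.baseChange ℚ) = W.map (Int.castRingHom ℚ) := by
  rw [one_smul, WeierstrassCurve.baseChange]
  congr 1

/-- the numbers `y_p` -/
noncomputable def yp (W : WeierstrassCurve ℤ) (d : ℤ) (p : ℕ) : ℝ :=
  (Tw.psi d p : ℝ) * Fam.yy W p

theorem abs_yp_le (W : WeierstrassCurve ℤ) (d : ℤ) (p : ℕ) : |yp W d p| ≤ 2 := by
  unfold yp
  rw [abs_mul]
  exact (mul_le_of_le_one_left (abs_nonneg _) (Tw.abs_psi_le' d p)).trans (Fam.abs_yy_le W p)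

/-- `yy` is `x_p` or `0` -/
theorem yy_cases (W : WeierstrassCurve ℤ) (p : Nat.Primes) :
    Fam.yy W p = 0 ∨ Fam.yy W p = Fam.lam (W.baseChange ℚ) p := by
  by_cases h : (p : ℕ).Prime ∧ 3 < (p : ℕ) ∧ ((W.Δ : ℤ) : ZMod p) ≠ 0
  · right
    exact (Fam.lam_eq_yy (W.baseChange ℚ) W 1 (int_model W) h.1 h.2.1 h.2.2).symm
  · left
    unfold Fam.yy
    rw [if_neg h]

theorem yp_cases (W : WeierstrassCurve ℤ) (d : ℤ) (p : Nat.Primes) :
    yp W d p = 0 ∨ yp W d p = Fam.lam (W.baseChange ℚ) p ∨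
      yp W d p = -Fam.lam (W.baseChange ℚ) p := by
  unfold yp
  rcases yy_cases W p with h | h
  · left
    rw [h, mul_zero]
  · rw [h]
    rcases Tw.psi_three d p with h | h | h
    · left
      rw [h, zero_mul]
    · right
      left
      rw [h, one_mul]
    · right
      right
      rw [h, neg_one_mul]

theorem elliptic (W : WeierstrassCurve ℤ) (hW : W.Δ ≠ 0) : (W.baseChange ℚ).IsElliptic := by
  refine ⟨?_⟩
  rw [WeierstrassCurve.baseChange, WeierstrassCurve.map_Δ, isUnit_iff_ne_zero]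
  simpa using hW

theorem agree (W : WeierstrassCurve ℤ) (d : ℤ) (E' : WeierstrassCurve ℚ)
    (h : IsTwist (W.baseChange ℚ) d E') (K : Type u) [Field K] [NumberField K] :
    Tw.Agree K (E'.baseChange K) (d * W.Δ) (yp W d) := by
  intro v hp h3 hQ
  obtain ⟨C', hC'⟩ := baseChange_twist (W.baseChange ℚ) E' d h K
  have hd : ¬ ((Fam.N v : ℤ) ∣ d) := fun h => hQ (h.mul_right _)
  have hΔ : ((W.Δ : ℤ) : ZMod (Fam.N v)) ≠ 0 := by
    intro h
    rw [ZMod.intCast_zmod_eq_zero_iff_dvd] at h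
    exact hQ (h.mul_left _)
  rw [Tw.cmp_good (W.baseChange ℚ) W 1 (int_model W) (E'.baseChange K) d C' hC' v hp rfl h3 hd hΔ]
  obtain ⟨h7, h8⟩ := Fam.coeff_eq_yy (W.baseChange ℚ) W 1 (int_model W) v rfl hp h3 hΔ
  have h11 : Zfr.xK ((W.baseChange ℚ).baseChange K) v = Fam.yy W (Fam.N v) := by
    unfold Zfr.xK
    rw [if_neg h7, h8]
  rw [h11]
  rfl

theorem dz_neg (y : ℝ) : Szf.dz (-y) = Szf.dz y := by
  have key : ∀ y : ℝ, Szf.dz (-y) ≤ Szf.dz y := by
    intro y
    have h := Szf.dz_le (-y) (round y)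
    refine h.trans (le_of_eq ?_)
    unfold Szf.dz
    rw [sq_abs]
    ring
  refine le_antisymm (key y) ?_
  have := key (-y)
  rwa [neg_neg] at this

theorem bias_le (W : WeierstrassCurve ℤ) (d : ℤ) {η ε : ℝ} (hη1 : η ≤ 1) (hε : 0 < ε) :
    Tw.bs (yp W d) η ε ≤ bias (W.baseChange ℚ) d η ε := by
  unfold Tw.bs bias
  refine mul_le_mul_of_nonneg_left ?_ hε.le
  have hs := Szf.summable_lp hε
  refine (hs.indicator _).tsum_le_tsum (fun p => ?_) (hs.indicator _)
  refine Set.indicator_le_indicator_of_subset ?_ (fun p => Szf.lp_nonneg ε p) p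
  intro q hq
  have hq' : yp W d q < -2 + η := hq
  show (chi d q : ℝ) * xp (W.baseChange ℚ) q < -(2 - η)
  unfold yp at hq'
  rcases yy_cases W q with h | h
  · rw [h, mul_zero] at hq'
    linarith
  · rw [h] at hq'
    have e : (chi d q : ℝ) * xp (W.baseChange ℚ) q =
        (Tw.psi d q : ℝ) * Fam.lam (W.baseChange ℚ) q := rfl
    rw [e]
    linarith

theorem spread_le (W : WeierstrassCurve ℤ) (hW : W.Δ ≠ 0) (d : ℤ) (m : ℕ) {ε : ℝ} (hε : 0 < ε) :
    ε * ∑' p : Nat.Primes, Szf.lp ε p * ((m * yp W d p) ^ 2 - Szf.dz (m * yp W d p)) ≤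
      spread (W.baseChange ℚ) m ε := by
  rw [spread_eq]
  refine mul_le_mul_of_nonneg_left ?_ hε.le
  have hell := elliptic W hW
  obtain ⟨B, C, hC2, hlam, -, -⟩ := Szf.lam_data.{0} (W.baseChange ℚ)
  have hsum : ∀ z : Nat.Primes → ℝ, (∀ p, |z p| ≤ C) → Summable fun p : Nat.Primes =>
      Szf.lp ε p * ((m * z p) ^ 2 - Szf.dz (m * z p)) := by
    intro z hz
    refine Szf.summable_lp_mul hε (C := (m * C) ^ 2) fun p => ?_
    have e1 := Szf.dz_le (m * z p) 0
    rw [Int.cast_zero, zero_add] at e1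
    have e2 := Szf.dz_nonneg (m * z p)
    have e3 : (m * z p) ^ 2 ≤ (m * C) ^ 2 := by
      rw [← sq_abs, abs_mul, abs_of_nonneg (Nat.cast_nonneg m)]
      exact pow_le_pow_left₀ (by positivity)
        (mul_le_mul_of_nonneg_left (hz p) (Nat.cast_nonneg m)) 2
    rw [abs_of_nonneg (by linarith)]
    linarith
  refine (hsum (fun p => yp W d p) (fun p => (abs_yp_le W d p).trans hC2)).tsum_le_tsum
    (fun p => ?_) (hsum (fun p => Fam.lam (W.baseChange ℚ) p) fun p => hlam p p.2)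
  refine mul_le_mul_of_nonneg_left ?_ (Szf.lp_nonneg ε p)
  rcases yp_cases W d p with h | h | h
  · rw [h]
    have h2 := Szf.dz_le (m * Fam.lam (W.baseChange ℚ) p) 0
    rw [Int.cast_zero, zero_add] at h2
    have h3 := Szf.dz_nonneg (m * (0 : ℝ))
    have h4 : (m * (0 : ℝ)) ^ 2 = 0 := by ring
    linarith
  · rw [h]
  · rw [h, mul_neg, dz_neg, neg_sq]

theorem result (n m G : ℕ) (hG : G ≤ 2 * m ^ 2) (η c₀ : ℝ) (hη : 0 < η) (hη1 : η ≤ 1)
    (hc₀ : 0 < c₀) :
    ∃ c : ℝ, 0 < c ∧ ∃ N : ℕ, ∀ W : WeierstrassCurve ℤ, W.Δ ≠ 0 →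
      ∀ (d : ℤ) (E' : WeierstrassCurve ℚ), d ≠ 0 → IsTwist (W.baseChange ℚ) d E' →
      ∀ F₀ : ℂ → ℂ, Differentiable ℂ F₀ → (∀ s : ℂ, 3 / 2 < s.re → F₀ s = E'.LSeries s) →
      ∀ (K : Fin m → Type u) [∀ i, Field (K i)] [∀ i, NumberField (K i)],
      (∀ i, Module.finrank ℚ (K i) ≤ n) → ∑ i, ∑ j, factors (K i) (K j) ≤ G →
      ∀ F : Fin m → ℂ → ℂ, (∀ i, Differentiable ℂ (F i)) →
      (∀ i, ∀ s : ℂ, 3 / 2 < s.re → F i s = (E'.baseChange (K i)).LSeries s) →
      ∀ A₀ : ℝ, 0 < A₀ → ∀ A : Fin m → ℝ, (∀ i, 0 < A i) →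
      ∀ δ T M : ℝ, 0 < δ → δ ≤ 1 / 2 → 0 ≤ T → 2 ≤ M → |(W.Δ : ℝ)| ≤ M → |(d : ℝ)| ≤ M →
      (∀ i, (|discr (K i)| : ℝ) ≤ M) →
      (∀ s : ℂ, 3 / 2 - δ ≤ s.re → |s.im| ≤ N * (T + 1) → ‖F₀ s‖ ≤ M) →
      (∀ i, ∀ s : ℂ, 3 / 2 - δ ≤ s.re → |s.im| ≤ N * (T + 1) → ‖F i s‖ ≤ M) →
      (∀ i, IdealBound (K i) δ M) → (∀ i j I, IdealBound (Factor (K i) (K j) I) δ M) →
      (∃ i, (∀ β : ℝ, 3 / 2 - c * width δ T M < β → completed (K i) (A i) (F i) β ≠ 0) ∧
        ((∃ ε : ℝ, c * width δ T M ≤ ε ∧ ε ≤ width δ T M ∧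
            η / (16 * n) < bias (W.baseChange ℚ) d η ε) ∨
          ∀ ρ : ℂ, 3 / 2 - c * width δ T M < ρ.re → |ρ.im| ≤ T →
            completed (K i) (A i) (F i) ρ ≠ 0)) ∨
      ((∃ ε : ℝ, c * width δ T M ≤ ε ∧ ε ≤ width δ T M ∧
          (m : ℝ) ^ 2 - η < spread (W.baseChange ℚ) m ε) ∧
        (5 * m ^ 2 ≤ 4 * G ∨ ∃ z : ℂ, ‖z - 3 / 2‖ < c₀ * width δ T M ∧
          completed ℚ A₀ F₀ z = 0)) := by
  obtain ⟨c₁, hc₁, hc₁1, hmain⟩ := Tw.siegel_u.{u} n m (G - m ^ 2) η (min c₀ 1) hη (by positivity)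
  obtain ⟨c₂, hc₂, N, hone⟩ := Tw.one_zero_u.{u} n η hη hη1
  refine ⟨min c₁ c₂, by positivity, N + 1, ?_⟩
  set c : ℝ := min c₁ c₂ with hcdef
  have hc0 : 0 < c := by positivity
  have hca : c ≤ c₁ := min_le_left _ _
  have hcb : c ≤ c₂ := min_le_right _ _
  have hc1 : c ≤ 1 := hca.trans hc₁1
  intro W hW d E' hd hE' F₀ hF₀ hFL₀ K _ _ hdeg hgam F hF hFL A₀ hA₀ A hA δ T M hδ hδ1 hT hM hΔM
    hdM hdisc hFM₀ hFM hcnt hcnt2
  have hLT := Zfr.two_le_Lg hδ hδ1 hT hM
  have hLpos : 0 < Zfr.Lg M T δ := by linarith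
  have hr0 : 0 < width δ T M := by
    rw [width_eq]
    exact div_pos hδ hLpos
  have hr1 : width δ T M ≤ 1 := by
    rw [width_eq, div_le_one hLpos]
    linarith
  have hw : ∀ c' : ℝ, c' * δ / Zfr.Lg M T δ = c' * width δ T M := by
    intro c'
    rw [width_eq, mul_div_assoc]
  have hmono : ∀ c' : ℝ, c ≤ c' → c * width δ T M ≤ c' * width δ T M := fun c' hc' =>
    mul_le_mul_of_nonneg_right hc' hr0.le
  have hQ0 : d * W.Δ ≠ 0 := mul_ne_zero hd hW
  have hQM : |((d * W.Δ : ℤ) : ℝ)| ≤ M ^ 2 := by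
    push_cast
    rw [abs_mul, sq]
    exact mul_le_mul hdM hΔM (abs_nonneg _) (by linarith)
  have hag₀ := agree W d E' hE' ℚ
  rw [Szf.baseChange_rat] at hag₀
  have hN : (1 : ℝ) ≤ ((N + 1 : ℕ) : ℝ) := by
    exact_mod_cast Nat.le_add_left 1 N
  have hN' : (1 : ℝ) ≤ ((N + 1 : ℕ) : ℝ) * (T + 1) := by nlinarith
  -- the larger bound
  set M' : ℝ := M * (T + 2) / 2 with hM'
  have hMM : M ≤ M' := by
    rw [hM', le_div_iff₀ (by norm_num)]
    nlinarith
  have hLg : Zfr.Lg M' 0 δ = Zfr.Lg M T δ := by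
    unfold Zfr.Lg
    congr 1
    rw [hM']
    ring
  have hcnt' : ∀ (L : Type u) [Field L] [NumberField L], IdealBound L δ M → Szf.Cnt L δ M' := by
    rintro L _ _ ⟨κ, hκ⟩
    refine ⟨κ, fun x hx => (hκ x hx).trans ?_⟩
    exact mul_le_mul_of_nonneg_right hMM (by positivity)
  by_contra hcon
  push Not at hcon
  obtain ⟨hcon1, hcon2⟩ := hcon
  have hyp : ((∀ z : ℂ, ‖z - 3 / 2‖ < min c₀ 1 * δ / Zfr.Lg M' 0 δ → F₀ z ≠ 0) ∧
      4 * (G - m ^ 2) < m ^ 2) ∨
      (G - m ^ 2 ≤ m ^ 2 ∧ ∀ ε : ℝ, c₁ * δ / Zfr.Lg M' 0 δ ≤ ε → ε ≤ δ / Zfr.Lg M' 0 δ →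
        ε * ∑' p : Nat.Primes, Szf.lp ε p * ((m * yp W d p) ^ 2 - Szf.dz (m * yp W d p)) ≤
          (m : ℝ) ^ 2 - η) := by
    rw [hLg]
    by_cases hsp : ∃ ε : ℝ, c * width δ T M ≤ ε ∧ ε ≤ width δ T M ∧
        (m : ℝ) ^ 2 - η < spread (W.baseChange ℚ) m ε
    · left
      obtain ⟨h4, h5⟩ := hcon2 hsp
      refine ⟨fun z hz h0 => ?_, by omega⟩
      rw [hw] at hz
      have h6 : min c₀ 1 * width δ T M ≤ c₀ * width δ T M :=
        mul_le_mul_of_nonneg_right (min_le_left _ _) hr0.le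
      have h7 : min c₀ 1 * width δ T M ≤ 1 := by
        have : min c₀ 1 ≤ 1 := min_le_right _ _
        nlinarith
      have h8 : 0 < z.re := by
        have h9 := Complex.abs_re_le_norm (z - 3 / 2)
        have h10 : (z - 3 / 2).re = z.re - 3 / 2 := by simp
        rw [h10] at h9
        have h11 := (abs_le.1 h9).1
        linarith
      exact h5 z (by linarith) ((zero_of_completed ℚ hA₀ h8).2 h0)
    · right
      push Not at hsp
      refine ⟨by omega, fun ε h1 h2 => ?_⟩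
      rw [hw] at h1
      rw [← width_eq] at h2
      have h3 := hmono c₁ hca
      have hε : 0 < ε := lt_of_lt_of_le (by positivity) h1
      exact (spread_le W hW d m hε).trans (hsp ε (h3.trans h1) h2)
  obtain ⟨i, hi⟩ := hmain (d * W.Δ) (yp W d) hQ0 (abs_yp_le W d) E' hag₀ F₀ hF₀
    hFL₀ K hdeg (by
      have h1 : ∑ i, ∑ j, Fam.gam (K i) (K j) ≤ G := hgam
      omega) (fun i => E'.baseChange (K i)) (fun i => agree W d E' hE' (K i)) F hF hFL δ M' hδ hδ1
    (hM.trans hMM) (hQM.trans (pow_le_pow_left₀ (by linarith) hMM 2))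
    (fun i => (hdisc i).trans hMM)
    (fun s hs hs' => (hFM₀ s hs (hs'.trans hN')).trans hMM)
    (fun i s hs hs' => (hFM i s hs (hs'.trans hN')).trans hMM)
    (fun i => hcnt' _ (hcnt i)) (fun i j I => hcnt' _ (hcnt2 i j I)) hyp
  rw [hLg, hw] at hi
  have hreal : ∀ β : ℝ, 3 / 2 - c * width δ T M < β → F i β ≠ 0 := fun β hβ =>
    hi β (by have := hmono c₁ hca; linarith)
  obtain ⟨h1, ρ, hρ1, hρ2, hρ0⟩ := hcon1 i (fun β hβ h0 => by
    have hpos : 0 < ((β : ℝ) : ℂ).re := by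
      rw [Complex.ofReal_re]
      nlinarith
    exact hreal β hβ ((zero_of_completed (K i) (hA i) hpos).1 h0))
  obtain ⟨β, hβ⟩ := hone (K i) (hdeg i) (E'.baseChange (K i)) (d * W.Δ) (yp W d) hQ0
    (agree W d E' hE' (K i)) (F i) (hF i) (hFL i) δ T M hδ hδ1 hT hM hQM
    (fun s hs hs' => hFM i s hs (hs'.trans (mul_le_mul_of_nonneg_right
      (by exact_mod_cast Nat.le_add_right N 1) (by linarith)))) (hcnt i) (fun ε h2 h3 => by
      rw [hw] at h2
      rw [← width_eq] at h3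
      have h4 := hmono c₂ hcb
      have hε : 0 < ε := lt_of_lt_of_le (by positivity) h2
      exact (bias_le W d hη1 hε).trans (h1 ε (h4.trans h2) h3))
  have hpos : 0 < ρ.re := by nlinarith
  have hz := (zero_of_completed (K i) (hA i) hpos).1 hρ0
  have h5 := (hβ ρ (by
    rw [hw]
    have := hmono c₂ hcb
    linarith) hρ2 hz).1
  rw [h5] at hz hρ1
  rw [Complex.ofReal_re] at hρ1
  exact hreal β hρ1 hz

end Pool.Agent.Results.MP_fb225e_nt.UniformSiegelZeros
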